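import Pool.Agent.H548.LU.Asm
import Pool.Agent.H548.LU.C4
import Pool.Agent.R608.LU.Bits
import Pool.Agent.R608.LU.Rnd
import Pool.Agent.R209.LU.Robust
import Pool.Agent.R928.LU.F
import Pool.Agent.R576.LUD

/-!
MP_1da87e_co, Q1: union versus local covering numbers on hereditary bipartite hosts.

Answer: yes.  There are a hereditary class `𝓗` of bipartite graphs and a graph class `C` with
`c_l^C(𝓗) ≤ 3` and `c_u^C(𝓗) = ∞`.
The definitions (`GraphClass`, `Cover`, `cl`, `cu`, ...) are in `Pool/Agent/H548/LU/Stage.lean`.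
-/

namespace Pool.Agent.Results.MP_1da87e_co.LocalUnion

open Pool.Agent.H548.LU

/-- There are a hereditary class of bipartite graphs and a graph class of guests such that the
local covering number is at most 3 and the union covering number is infinite. -/
theorem result : ∃ 𝓗 C : GraphClass, 𝓗.Hereditary ∧ 𝓗.Bipartite ∧
    clClass C 𝓗 ≤ 3 ∧ cuClass C 𝓗 = ⊤ :=
  class_level (stage_all (stmtX_of Pool.Agent.R608.LU.stmtRnd)
    (Pool.Agent.R576.LUD.stmtBeta_of Pool.Agent.R608.LU.stmtBits)
    Pool.Agent.R209.LU.stmtRobust Pool.Agent.R928.LUF.stmtFinal)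

end Pool.Agent.Results.MP_1da87e_co.LocalUnion
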